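import Pool.Agent.Q253.Cov.QuadC
import Pool.Agent.Q253.Cov.Pig

/-!
# `m ^ 2 + 1` almost prime in all residue classes to large moduli and in all short intervals, with narrow progressions

Let `r ≥ 3`, `h ≤ 1` and `50 < 3 (8 r - 1) h` (`r = 3`: `h > 0.725`).  For all large `X`, EVERY modulus `q`, EVERY class `v` modulo `q`
with `v ^ 2 + 1` prime to `q` and EVERY interval of `H ≥ X ^ h` consecutive members `m = q j + v` of the class below `X` (so `q` may be as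
large as `X ^ (1-h)`) the numbers `m ^ 2 + 1` with at most `r` prime factors, all at least `X ^ (h/5)`, have the frequency expected from
the sieve, and the dense subsets contain arithmetic progressions of any length with difference `q d`, `d` at most a power of `log X`.

Libraries (starting files): weighted sieve `Y882.KW.core4`, `Y882.SI.mer_quad` (Mertens for the roots), Szemerédi's theorem
relative to sifted sets `Y843.HS.fin`.
-/

set_option autoImplicit false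

namespace Pool.Agent.Results.MP_f1a94e_nt.AllClassesAndIntervals

open Finset
open Pool.Agent.Q253.Cov (QP QP_eval QC QC_eval CC Zf Zf_ro ro_QC ro_QC_dvd GQ GP quadC_count quadC_ap pigeon)
open Pool.Agent.Y843.HS (VV Pr Pr_mem)

/-- the number of the solutions of `m ^ 2 + 1 = 0` modulo `p` -/
def rho (p : ℕ) : ℕ := ((range p).filter (fun m => p ∣ m ^ 2 + 1)).card

/-- the product of the `1 - rho p / p` over the primes `p ≤ H` which do not divide `q` -/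
noncomputable def V (q H : ℕ) : ℝ := ∏ p ∈ (Icc 1 H).filter (fun p => p.Prime ∧ ¬ p ∣ q), (1 - (rho p : ℝ) / p)

open Classical in
/-- the `j` of `(A, A + H]` such that `(q j + v) ^ 2 + 1` has at most `r` prime factors (with multiplicity), all at least `z` -/
noncomputable def G (q v r : ℕ) (z : ℝ) (A H : ℕ) : Finset ℕ :=
  (Ioc A (A + H)).filter (fun j => ((q * j + v) ^ 2 + 1).primeFactorsList.length ≤ r ∧
    ∀ p : ℕ, p.Prime → p ∣ (q * j + v) ^ 2 + 1 → z ≤ p)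

lemma val (m : ℕ) : ((QP 1 0 1).eval (m : ℤ)).natAbs = m ^ 2 + 1 := by
  rw [QP_eval]
  have : (1 : ℤ) * (m : ℤ) ^ 2 + 0 * m + 1 = ((m ^ 2 + 1 : ℕ) : ℤ) := by
    push_cast
    ring
  rw [this, Int.natAbs_natCast]

lemma val_dvd (p m : ℕ) : (p : ℤ) ∣ (QP 1 0 1).eval (m : ℤ) ↔ p ∣ m ^ 2 + 1 := by
  rw [Int.natCast_dvd, val]

lemma G_eq (q v r : ℕ) (hq : 1 ≤ q) (h : ℝ) (X A H : ℕ) : G q v r ((X : ℝ) ^ (h / 5)) A H = GQ (QC 1 0 1 q v) r h X A H := by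
  classical
  ext j
  unfold G GQ GP
  simp only [mem_filter, QC_eval, val, val_dvd, mem_Ioc]
  constructor
  · rintro ⟨h1, h2, h3⟩
    refine ⟨⟨h1, h2, h3⟩, ?_⟩
    have : 1 ≤ q * j + v := by nlinarith
    nlinarith
  · rintro ⟨⟨h1, h2, h3⟩, _⟩
    exact ⟨h1, h2, h3⟩

lemma CC_iff {q v : ℕ} (hv : Nat.Coprime (v ^ 2 + 1) q) : CC 1 0 1 q v := by
  intro p hp hpq hd
  rw [val_dvd] at hd
  exact hp.one_lt.ne' (Nat.dvd_one.1 (hv ▸ Nat.dvd_gcd hd hpq))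

lemma V_eq {q v : ℕ} (hv : Nat.Coprime (v ^ 2 + 1) q) (H : ℕ) : V q H = VV (Zf (QC 1 0 1 q v)) 0 H := by
  unfold V VV
  have h1 : Pr 0 H = (Icc 1 H).filter Nat.Prime := by
    ext p
    rw [Pr_mem, mem_filter, mem_Icc]
    constructor
    · rintro ⟨⟨a, b⟩, c⟩
      exact ⟨⟨c.pos, b⟩, c⟩
    · rintro ⟨⟨a, b⟩, c⟩
      exact ⟨⟨c.pos, b⟩, c⟩
  rw [h1, ← filter_filter, prod_filter (p := fun p => ¬ p ∣ q)]
  apply prod_congr rfl
  intro p hp
  have hpp := (mem_filter.1 hp).2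
  rw [Zf_ro]
  split_ifs with hpq
  · rw [ro_QC_dvd (CC_iff hv) hpp hpq]
    simp
  · rw [ro_QC hpp hpq, ← Zf_ro]
    unfold rho Zf
    simp only [val_dvd]

/-- **`m ^ 2 + 1` almost prime in all classes and all short intervals.** -/
theorem result : ∀ r : ℕ, 3 ≤ r → ∀ h : ℝ, h ≤ 1 → 50 < 3 * (8 * (r : ℝ) - 1) * h →
    (∃ δ : ℝ, 0 < δ ∧ ∃ X₀ : ℕ, ∀ X : ℕ, X₀ ≤ X → ∀ q v A H : ℕ, 1 ≤ q → Nat.Coprime (v ^ 2 + 1) q →
      q * (A + H) + v ≤ X → (X : ℝ) ^ h ≤ H →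
      δ * (H * V q H) ≤ ((G q v r ((X : ℝ) ^ (h / 5)) A H).card : ℝ)) ∧
    (∀ L : ℕ, ∀ ε : ℝ, 0 < ε → ∃ D X₀ : ℕ, ∀ X : ℕ, X₀ ≤ X → ∀ q v A H : ℕ, 1 ≤ q → Nat.Coprime (v ^ 2 + 1) q →
      q * (A + H) + v ≤ X → (X : ℝ) ^ h ≤ H →
      ∀ S ⊆ G q v r ((X : ℝ) ^ (h / 5)) A H, ε * ((G q v r ((X : ℝ) ^ (h / 5)) A H).card : ℝ) ≤ S.card →
        ∃ j d : ℕ, 1 ≤ d ∧ (d : ℝ) ≤ Real.log X ^ D ∧ ∀ i < L, j + i * d ∈ S) ∧
    (∀ L k : ℕ, 1 ≤ k → ∃ D X₀ : ℕ, ∀ X : ℕ, X₀ ≤ X → ∀ q v A H : ℕ, 1 ≤ q → Nat.Coprime (v ^ 2 + 1) q →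
      q * (A + H) + v ≤ X → (X : ℝ) ^ h ≤ H → ∀ col : ℕ → Fin k,
      ∃ s : ℕ, 1 ≤ s ∧ s ≤ r ∧ ∃ b : Fin k, ∃ m d : ℕ, m ≡ v [MOD q] ∧ q * A + v < m ∧ 1 ≤ d ∧ (d : ℝ) ≤ Real.log X ^ D ∧
        ∀ i < L, m + i * (d * q) ≤ q * (A + H) + v ∧ col (m + i * (d * q)) = b ∧
        ((m + i * (d * q)) ^ 2 + 1).primeFactorsList.length = s ∧
        ∀ p : ℕ, p.Prime → p ∣ (m + i * (d * q)) ^ 2 + 1 → (X : ℝ) ^ (h / 5) ≤ p) := by
  classical
  intro r hr3 h hh1 hr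
  have hg : ∀ q : ℕ, q.Prime → ¬ ((q : ℤ) ∣ (1 : ℤ) ∧ (q : ℤ) ∣ (0 : ℤ) ∧ (q : ℤ) ∣ (1 : ℤ)) := by
    rintro q hq ⟨h1, _⟩
    have : q ∣ 1 := by exact_mod_cast h1
    exact hq.one_lt.ne' (Nat.dvd_one.1 this)
  have hp : ¬ ((2 : ℤ) ∣ (1 : ℤ) + 0 ∧ (2 : ℤ) ∣ (1 : ℤ)) := by
    rintro ⟨_, h2⟩
    omega
  have hD : ¬ IsSquare ((0 : ℤ) ^ 2 - 4 * 1 * 1) := by
    rintro ⟨x, hx⟩
    nlinarith [mul_self_nonneg x]
  have hr1 : 1 ≤ r := by omega
  refine ⟨?_, ?_, ?_⟩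
  · obtain ⟨δ, hδ, X₀, H1⟩ := quadC_count (a := 1) (b := 0) (c := 1) one_pos hg hp hD r h hh1 hr1 hr
    refine ⟨δ, hδ, X₀, fun X hX q v A H hq hv hqX hH => ?_⟩
    rw [G_eq q v r hq, V_eq hv]
    exact H1 X hX q v A H hq (CC_iff hv) hqX hH
  · intro L ε hε
    obtain ⟨D, X₀, H1⟩ := quadC_ap (a := 1) (b := 0) (c := 1) one_pos hg hp hD r h hh1 hr1 hr L ε hε
    refine ⟨D, X₀, fun X hX q v A H hq hv hqX hH S hS hSc => ?_⟩
    rw [G_eq q v r hq] at hS hSc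
    exact H1 X hX q v A H hq (CC_iff hv) hqX hH S hS hSc
  · intro L k hk
    obtain ⟨K, hK⟩ : ∃ K : Finset (ℕ × Fin k), K = (Icc 1 r) ×ˢ univ := ⟨_, rfl⟩
    have hKc : K.card = r * k := by
      rw [hK, card_product, card_univ, Fintype.card_fin, Nat.card_Icc, Nat.add_sub_cancel]
    have hKpos : 0 < K.card := by
      rw [hKc]
      exact Nat.mul_pos (by omega) (by omega)
    have hKr : (0 : ℝ) < K.card := by exact_mod_cast hKpos
    obtain ⟨D, X₀, H1⟩ := quadC_ap (a := 1) (b := 0) (c := 1) one_pos hg hp hD r h hh1 hr1 hr (L + 1) (1 / (K.card : ℝ)) (by positivity)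
    refine ⟨D, X₀, fun X hX q v A H hq hv hqX hH col => ?_⟩
    have hGm : ∀ j ∈ G q v r ((X : ℝ) ^ (h / 5)) A H, (A < j ∧ j ≤ A + H) ∧
        ((q * j + v) ^ 2 + 1).primeFactorsList.length ≤ r ∧ ∀ p : ℕ, p.Prime → p ∣ (q * j + v) ^ 2 + 1 → (X : ℝ) ^ (h / 5) ≤ p := by
      intro j hj
      unfold G at hj
      rw [mem_filter, mem_Ioc] at hj
      exact hj
    obtain ⟨e, heK, he⟩ := pigeon (G q v r ((X : ℝ) ^ (h / 5)) A H) K
      (fun j => (((q * j + v) ^ 2 + 1).primeFactorsList.length, col (q * j + v))) (by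
        intro j hj
        obtain ⟨h1, h3, _⟩ := hGm j hj
        rw [hK, mem_product, mem_Icc]
        refine ⟨⟨?_, h3⟩, mem_univ _⟩
        by_contra hcon
        have h4 : ((q * j + v) ^ 2 + 1).primeFactorsList = [] := List.length_eq_zero_iff.1 (by
          simp only at hcon
          omega)
        rw [Nat.primeFactorsList_eq_nil] at h4
        have h5 : 1 ≤ q * j + v := by nlinarith
        have h6 : 1 ≤ (q * j + v) ^ 2 := Nat.one_le_pow _ _ h5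
        omega) (card_pos.1 hKpos)
    obtain ⟨j, d, hd1, hd2, hd3⟩ := H1 X hX q v A H hq (CC_iff hv) hqX hH ((G q v r ((X : ℝ) ^ (h / 5)) A H).filter
      (fun j => (((q * j + v) ^ 2 + 1).primeFactorsList.length, col (q * j + v)) = e)) (by
      rw [← G_eq q v r hq]
      exact filter_subset _ _) (by
      rw [← G_eq q v r hq]
      exact he)
    rw [hK, mem_product, mem_Icc] at heK
    have h0 := hd3 0 (by omega)
    rw [mem_filter, zero_mul, add_zero] at h0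
    have hA0 := (hGm _ h0.1).1.1
    refine ⟨e.1, heK.1.1, heK.1.2, e.2, q * j + v, d, ?_, ?_, hd1, hd2, ?_⟩
    · unfold Nat.ModEq
      rw [Nat.mul_add_mod]
    · have : q * A < q * j := Nat.mul_lt_mul_of_pos_left hA0 (by omega)
      omega
    · intro i hi
      have h5 := hd3 i (by omega)
      rw [mem_filter] at h5
      obtain ⟨g1, _, g4⟩ := hGm _ h5.1
      have e0 : q * (j + i * d) + v = q * j + v + i * (d * q) := by ring
      have h6 := h5.2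
      rw [e0] at g4 h6
      refine ⟨?_, ?_, ?_, g4⟩
      · rw [← e0]
        have := Nat.mul_le_mul_left q g1.2
        omega
      · rw [← h6]
      · rw [← h6]

end Pool.Agent.Results.MP_f1a94e_nt.AllClassesAndIntervals
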