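import Mathlib
import Pool.Agent.Q160.GQ10

set_option autoImplicit false

/-!
# Growing systems of polynomials with one moving coefficient each, at prime arguments

The polynomials are `g_i + b_i X ^ e_i`, for instance `b_i X² + 1` or `X² + b_i X + 1`; the `g_i` and
`e_i ≥ 1` are arbitrary, the `b_i` vary over `[1, H]`, and the number `k` of the polynomials may grow with `H`.
-/

namespace Pool.Agent.Results.MP_f1a94e_nt.GrowingSystemsAtPrimes

open Finset Polynomial

/-- the greatest common divisor of the coefficients -/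
def content (g : ℤ[X]) : ℕ := g.support.gcd (fun j => (g.coeff j).natAbs)

/-- the factor `∏_{p ∣ a, p > k} p / (p - 1)` -/
noncomputable def G (k a : ℕ) : ℝ := ∏ p ∈ a.primeFactors.filter (fun p => k < p), (1 - (p : ℝ)⁻¹)⁻¹

/-- the expected gap `log H / (log (k + 2) G_k(content g))` -/
noncomputable def W (k H : ℕ) (g : ℤ[X]) : ℝ := Real.log H / (Real.log (k + 2) * G k (content g))

/-- the polynomial `g + b X ^ e` -/
noncomputable def F (g : ℤ[X]) (e b : ℕ) : ℤ[X] := g + C (b : ℤ) * X ^ e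

/-- the box `[1, H]^k` -/
def box (k H : ℕ) : Finset (Fin k → ℕ) := Fintype.piFinset (fun _ => Icc 1 H)

open Classical in
/-- the vectors `b` in `[1, H]^k` for which the triples `(g i, e i, b i)` are distinct and for which there is, for
every prime `q`, some `n` such that `q` does not divide `n F_1(n) ... F_k(n)` -/
noncomputable def systems {k : ℕ} (g : Fin k → ℤ[X]) (e : Fin k → ℕ) (H : ℕ) : Finset (Fin k → ℕ) :=
  (box k H).filter (fun b =>
    (∀ q : ℕ, q.Prime → ∃ n : ℕ, ¬ q ∣ n ∧ ∀ i, ¬ (q : ℤ) ∣ (F (g i) (e i) (b i)).eval (n : ℤ)) ∧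
    ∀ i j, i ≠ j → ¬ (g i = g j ∧ e i = e j ∧ b i = b j))

/-- the primes `p` in `N` for which all the numbers `F_i(p)` are (positive) primes -/
noncomputable def good {k : ℕ} (g : Fin k → ℤ[X]) (e : Fin k → ℕ) (b : Fin k → ℕ) (N : Finset ℕ) : Finset ℕ :=
  N.filter (fun p => p.Prime ∧ ∀ i, ((F (g i) (e i) (b i)).eval (p : ℤ)).toNat.Prime)

/-- the class of the data: `g` has degree at most `d`, its constant term is not zero, and `X ^ e` does not occur in it,
`e ≤ d` -/
def Data (d : ℕ) (g : ℤ[X]) (e : ℕ) : Prop := g.coeff e = 0 ∧ g.coeff 0 ≠ 0 ∧ g.natDegree ≤ d ∧ e ≤ d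

lemma eval_F (g : ℤ[X]) (e b n : ℕ) : (F g e b).eval (n : ℤ) = Pool.Agent.Q160.GQ.vl g e n b := by
  unfold F Pool.Agent.Q160.GQ.vl
  rw [eval_add, eval_mul, eval_C, eval_pow, eval_X]
  push_cast
  ring

open Classical in
lemma systems_eq {k : ℕ} (g : Fin k → ℤ[X]) (e : Fin k → ℕ) (H : ℕ) :
    Pool.Agent.Q160.GQ.SysL g e H = systems g e H := by
  unfold Pool.Agent.Q160.GQ.SysL systems Pool.Agent.Q160.GQ.AdmL Pool.Agent.Q160.GQ.DistL box
  simp only [eval_F]
  congr!

lemma good_eq {k : ℕ} (g : Fin k → ℤ[X]) (e : Fin k → ℕ) (b : Fin k → ℕ) (N : Finset ℕ) :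
    N.filter (fun n => n.Prime ∧ ∀ i, (Pool.Agent.Q160.GQ.vl (g i) (e i) n (b i)).toNat.Prime) = good g e b N := by
  unfold good
  simp only [eval_F]

open Classical in
theorem result (d : ℕ) (hd : 1 ≤ d) : ∃ (K : ℕ) (C : ℝ), 1 ≤ C ∧ ∀ k H : ℕ, 1 ≤ k → C * k ≤ Real.log H →
    ∀ (g : Fin k → ℤ[X]) (e : Fin k → ℕ), (∀ i, Data d (g i) (e i)) →
    (∀ y : ℕ, (∀ i, (y : ℝ) ^ max 1 (5 * e i - 6) * Real.log H ^ K ≤ H ∧
        C * ∑ j ∈ range (d + 1), |(((g i).coeff j : ℤ) : ℝ)| * (y : ℝ) ^ (j - e i) ≤ H ∧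
        2 * ((g i).coeff 0).natAbs ≤ y) →
      ∏ i, (C * W k H (g i)) ≤ y / Real.log y →
      (C ^ k)⁻¹ * ((systems g e H).card : ℝ) ≤
        (((systems g e H).filter (fun b =>
          (y / Real.log y) * ∏ i, (C * W k H (g i))⁻¹ ≤ ((good g e b (Icc 1 y)).card : ℝ))).card : ℝ)) ∧
    (∀ N : Finset ℕ, (∀ i, content (g i) ≤ H ^ 2 ∧ ∀ p ∈ N, ((g i).coeff 0).natAbs < p) → ∀ t : ℝ, 0 < t →
      (((box k H).filter (fun b => t ≤ ((good g e b N).card : ℝ))).card : ℝ) ≤
        ((N.filter Nat.Prime).card : ℝ) / t * (∏ i, (C / W k H (g i))) * ((systems g e H).card : ℝ)) := by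
  obtain ⟨K, C1, hC1, hlow⟩ := Pool.Agent.Q160.GQ.boxL d hd
  obtain ⟨C2, hC2, hup⟩ := Pool.Agent.Q160.GQ.upL d
  obtain ⟨C, hC⟩ : ∃ C : ℝ, C = max C1 C2 := ⟨_, rfl⟩
  have hCa : C1 ≤ C := by rw [hC]; exact le_max_left _ _
  have hCb : C2 ≤ C := by rw [hC]; exact le_max_right _ _
  have hC0 : 1 ≤ C := by linarith
  refine ⟨K, C, hC0, fun k H hk hkH g e hg => ?_⟩
  have hkr : (1 : ℝ) ≤ k := by exact_mod_cast hk
  have hHpos : (0 : ℝ) < H := by
    by_contra hcon
    push Not at hcon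
    have h7 : (H : ℝ) = 0 := le_antisymm hcon (Nat.cast_nonneg _)
    rw [h7, Real.log_zero] at hkH
    nlinarith
  have hL0 : 0 < Real.log H := by nlinarith
  have hlk := Pool.Agent.Q160.GK.log_two_add k
  have hgg : ∀ i, 1 ≤ Pool.Agent.Q160.GK.gg k (Pool.Agent.Q160.GQ.cz (g i)) := fun i => Pool.Agent.Q160.GK.one_le_gg _ _
  have hW : ∀ i, W k H (g i) = Real.log H / (Real.log (k + 2) * Pool.Agent.Q160.GK.gg k (Pool.Agent.Q160.GQ.cz (g i))) :=
    fun i => rfl
  have hW0 : ∀ i, 0 < W k H (g i) := fun i => by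
    rw [hW]
    have := hgg i
    positivity
  refine ⟨fun y hy hyL => ?_, fun N hN t ht => ?_⟩
  · have hprod : ∏ i, (C1 * W k H (g i)) ≤ ∏ i, (C * W k H (g i)) :=
      prod_le_prod (fun i _ => by have := hW0 i; positivity)
        fun i _ => mul_le_mul_of_nonneg_right hCa (hW0 i).le
    have h1 := hlow k hk g e H y (le_trans (mul_le_mul_of_nonneg_right hCa (by positivity)) hkH) hg
      (fun i => ⟨(hy i).1, le_trans (mul_le_mul_of_nonneg_right hCa (sum_nonneg fun j _ => by positivity)) (hy i).2.1,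
        (hy i).2.2⟩) (hprod.trans hyL)
    simp only [systems_eq, good_eq, ← hW] at h1
    have h2 : (C ^ k)⁻¹ * ((systems g e H).card : ℝ) ≤ (C1 ^ k)⁻¹ * ((systems g e H).card : ℝ) :=
      mul_le_mul_of_nonneg_right (inv_anti₀ (by positivity) (pow_le_pow_left₀ (by linarith) hCa k)) (Nat.cast_nonneg _)
    refine h2.trans (h1.trans ?_)
    have h3 : (systems g e H).filter (fun b =>
          (y / Real.log y) * ∏ i, (C1 * W k H (g i))⁻¹ ≤ ((good g e b (Icc 1 y)).card : ℝ)) ⊆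
        (systems g e H).filter (fun b =>
          (y / Real.log y) * ∏ i, (C * W k H (g i))⁻¹ ≤ ((good g e b (Icc 1 y)).card : ℝ)) := by
      intro b hb
      rw [mem_filter] at hb ⊢
      refine ⟨hb.1, le_trans (mul_le_mul_of_nonneg_left ?_ (div_nonneg (Nat.cast_nonneg _) (Real.log_natCast_nonneg _))) hb.2⟩
      refine prod_le_prod (fun i _ => by have := hW0 i; positivity) fun i _ => ?_
      exact inv_anti₀ (mul_pos (by linarith) (hW0 i)) (mul_le_mul_of_nonneg_right hCa (hW0 i).le)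
    exact_mod_cast card_le_card h3
  · have h1 := hup k hk g e H (le_trans (mul_le_mul_of_nonneg_right hCb (by positivity)) hkH) hg (fun i => (hN i).1)
      (N.filter Nat.Prime) (fun p hp => ⟨(mem_filter.1 hp).2, fun i => (hN i).2 p (mem_filter.1 hp).1⟩) t ht
    simp only [systems_eq, filter_filter, good_eq] at h1
    refine h1.trans ?_
    refine mul_le_mul_of_nonneg_right (mul_le_mul_of_nonneg_left ?_ (by positivity)) (Nat.cast_nonneg _)
    refine prod_le_prod (fun i _ => ?_) fun i _ => ?_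
    · have := hgg i
      positivity
    · rw [hW]
      have h2 := hgg i
      have h3 : C / (Real.log H / (Real.log (k + 2) * Pool.Agent.Q160.GK.gg k (Pool.Agent.Q160.GQ.cz (g i)))) =
          C * ((Real.log (k + 2) * Pool.Agent.Q160.GK.gg k (Pool.Agent.Q160.GQ.cz (g i))) / Real.log H) := by
        rw [div_div_eq_mul_div, mul_div_assoc]
      rw [h3]
      exact mul_le_mul_of_nonneg_right hCb (by positivity)

end Pool.Agent.Results.MP_f1a94e_nt.GrowingSystemsAtPrimes
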