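import Pool.Agent.Q145.PQ.AllP

set_option autoImplicit false
set_option maxHeartbeats 4000000

/-!
# Primes `p` with `a_1 p² + k_1, ..., a_K p² + k_K` all prime, for almost all long systems

For non-zero integers `a_i` (of either sign) and integers `c_i` such that `a_i x² + c_i` is of size between `Y²` and
`Q Y²` on `(Y, 2 Y]`, and constants `1 ≤ s_i ≤ H_i` (`H_i` the size of `a_i x² + c_i`), let `N_s` be the number of PRIMES
`Y < p ≤ 2 Y` for which `a_1 p² + c_1 + s_1, ..., a_K p² + c_K + s_K` are all prime. The formula of Hardy-Littlewood and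
Bateman-Horn `N_s ~ 𝔖(s) Y / (log Y log H_1 ... log H_K)`, with the full singular series of the `K + 1` polynomials
`x, a_i x² + c_i + s_i`, is proved for almost all admissible `s`, for systems whose length and leading coefficients grow
with `Y`, up to a bound `Q`:

* for every `Y` and `Q = A log log Y`;
* for arbitrarily large `Y` and `Q = c log Y / log log Y` (for `K ≥ (1 + δ) log Y / log log Y` the expected number tends
  to `0`);
* for every `Y` and `Q = c log Y / log log Y`, unless there is an exceptional zero.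
-/

namespace Pool.Agent.Results.MP_f1a94e_nt.LongSystemsAtPrimes

open Finset Filter Polynomial

open scoped Classical

/-- For a prime `p`: the number of classes `n` modulo `p` for which `p` divides `n` or one of the `a_i n² + c_i + s_i`. -/
def classes {K : ℕ} (a c : Fin K → ℤ) (s : Fin K → ℕ) (p : ℕ) : ℕ :=
  ((range p).filter fun n : ℕ => n = 0 ∨ ∃ i, (p : ℤ) ∣ a i * (n : ℤ) ^ 2 + c i + s i).card

/-- The product `x ∏ (a_i x² + c_i + s_i)` has no fixed prime divisor. -/
def Admissible {K : ℕ} (a c : Fin K → ℤ) (s : Fin K → ℕ) : Prop := ∀ p : ℕ, p.Prime → classes a c s p < p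

/-- The partial products (primes up to `w`) of the singular series of the `K + 1` polynomials `x`, `a_i x² + c_i + s_i`. -/
noncomputable def partialSeries {K : ℕ} (a c : Fin K → ℤ) (s : Fin K → ℕ) (w : ℕ) : ℝ :=
  ∏ p ∈ (Icc 1 w).filter Nat.Prime, (1 - (classes a c s p : ℝ) / p) / (1 - 1 / (p : ℝ)) ^ (K + 1)

/-- The singular series: the limit of the partial products. -/
noncomputable def series {K : ℕ} (a c : Fin K → ℤ) (s : Fin K → ℕ) : ℝ := limUnder atTop (partialSeries a c s)

/-- The number of primes `Y < p ≤ 2 Y` for which all the `a_i p² + c_i + s_i` are prime. -/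
def count {K : ℕ} (Y : ℕ) (a c : Fin K → ℤ) (s : Fin K → ℕ) : ℕ :=
  ((Ioc Y (2 * Y)).filter fun p : ℕ => p.Prime ∧ ∀ i, (a i * (p : ℤ) ^ 2 + c i + s i).toNat.Prime).card

/-- The admissible `s` with `1 ≤ s_i ≤ H_i`. -/
noncomputable def constants {K : ℕ} (H : Fin K → ℕ) (a c : Fin K → ℤ) : Finset (Fin K → ℕ) :=
  (Fintype.piFinset fun i => Icc 1 (H i)).filter (Admissible a c)

/-- The `a_i` are non-zero and at most `Q` in absolute value, and `5 H_i / 4 < a_i n² + c_i ≤ 2 H_i` for
`Y < n ≤ 2 Y`, where `Y² ≤ H_i ≤ Q Y²`. -/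
structure Shapes (Q Y : ℕ) {K : ℕ} (H : Fin K → ℕ) (a c : Fin K → ℤ) : Prop where
  lead : ∀ i, a i ≠ 0 ∧ |a i| ≤ Q
  scale : ∀ i, Y ^ 2 ≤ H i ∧ H i ≤ Q * Y ^ 2
  val : ∀ i, ∀ n ∈ Ioc Y (2 * Y), 5 * (H i : ℤ) < 4 * (a i * (n : ℤ) ^ 2 + c i) ∧ a i * (n : ℤ) ^ 2 + c i ≤ 2 * H i

/-- For all but a proportion at most `ε` of the admissible `s` the singular series converges to a positive number
`𝔖(s)` and `count = 𝔖(s) Y / (log Y ∏ log H_i)`, with a relative error at most `ε`. -/
def Formula {K : ℕ} (Y : ℕ) (H : Fin K → ℕ) (a c : Fin K → ℤ) (ε : ℝ) : Prop :=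
  (((constants H a c).filter fun s => ¬ (0 < series a c s ∧ Tendsto (partialSeries a c s) atTop (nhds (series a c s)) ∧
    |count Y a c s * (Real.log Y * ∏ i, Real.log (H i)) - series a c s * Y| ≤ ε * (series a c s * Y))).card : ℝ) ≤
      ε * (constants H a c).card

/-- The formula for all systems of shapes of length at most `Q`, with leading coefficients at most `Q`. -/
def Holds (Y Q : ℕ) (ε : ℝ) : Prop := ∀ K : ℕ, K ≤ Q → ∀ (H : Fin K → ℕ) (a c : Fin K → ℤ), Shapes Q Y H a c → Formula Y H a c ε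

/-- There is no exceptional zero at the scale `Y`: the real zeros `β` of the primitive quadratic
characters of conductor `1 < r ≤ exp (log Y / log log Y)` are at most `1 - C log log Y / log Y`. -/
def NoExceptionalZero (C : ℝ) (Y : ℕ) : Prop :=
  ∀ (r : ℕ) [NeZero r], 1 < r → (r : ℝ) ≤ Real.exp (Real.log Y / Real.log (Real.log Y)) →
    ∀ χ : DirichletCharacter ℂ r, χ.IsPrimitive → χ ^ 2 = 1 → ∀ β : ℝ, χ.LFunction β = 0 →
      β ≤ 1 - C * (Real.log (Real.log Y) / Real.log Y)

open Pool.Agent.Q145.PQ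
open Pool.Agent.Q145.LQ (Sys vq)

/-- the polynomials -/
noncomputable def pol {K : ℕ} (a c : Fin K → ℤ) : Fin K → ℤ[X] := fun i => C (a i) * X ^ 2 + C (c i)

theorem pol_eval {K : ℕ} (a c : Fin K → ℤ) (i : Fin K) (n : ℤ) : (pol a c i).eval n = a i * n ^ 2 + c i := by
  unfold pol
  rw [eval_add, eval_mul, eval_pow, eval_X, eval_C, eval_C]

theorem classes_eq {K : ℕ} (a c : Fin K → ℤ) (s : Fin K → ℕ) (p : ℕ) : classes a c s p = nuP (pol a c) s p := by
  unfold classes nuP
  simp only [pol_eval]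

theorem adm_eq {K : ℕ} (a c : Fin K → ℤ) (s : Fin K → ℕ) : Admissible a c s ↔ AdmP (pol a c) s := by
  unfold Admissible AdmP
  simp only [classes_eq]

theorem partial_eq {K : ℕ} (a c : Fin K → ℤ) (s : Fin K → ℕ) : partialSeries a c s = singPP (pol a c) s := by
  funext w
  unfold partialSeries singPP locP
  simp only [classes_eq]

theorem series_eq {K : ℕ} (a c : Fin K → ℤ) (s : Fin K → ℕ) : series a c s = singP (pol a c) s := by
  unfold series singP
  rw [partial_eq]

theorem constants_eq {K : ℕ} (H : Fin K → ℕ) (a c : Fin K → ℤ) : constants H a c = ATP H (pol a c) := by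
  unfold constants ATP
  ext s
  rw [mem_filter, mem_filter, adm_eq]

theorem pol_coeff {K : ℕ} (a c : Fin K → ℤ) (i : Fin K) : (pol a c i).coeff 2 = a i ∧ (pol a c i).coeff 1 = 0 ∧ (pol a c i).coeff 0 = c i := by
  unfold pol
  refine ⟨?_, ?_, ?_⟩ <;> rw [coeff_add, coeff_C_mul, coeff_X_pow, coeff_C] <;> simp

theorem pol_deg {K : ℕ} (a c : Fin K → ℤ) (i : Fin K) (h : a i ≠ 0) : (pol a c i).natDegree = 2 := by
  apply le_antisymm
  · unfold pol
    compute_degree
  · apply le_natDegree_of_ne_zero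
    rw [(pol_coeff a c i).1]
    exact h

theorem sys_of {Q Q' Y K : ℕ} {H : Fin K → ℕ} {a c : Fin K → ℤ} (h : Shapes Q Y H a c) (hQ : Q ≤ Q') : Sys 2 Q' Y (Y ^ 2) H (pol a c) where
  deg := fun i => by rw [pol_deg a c i (h.lead i).1]; norm_num
  lead := fun i => by
    have h1 := (h.lead i).2
    rw [Int.abs_eq_natAbs] at h1
    have h2 : (a i).natAbs ≤ Q := by exact_mod_cast h1
    unfold leadingCoeff
    rw [pol_deg a c i (h.lead i).1, (pol_coeff a c i).1]
    exact h2.trans hQ
  scale := fun i => ⟨(h.scale i).1, (h.scale i).2.trans (Nat.mul_le_mul_right _ hQ)⟩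
  val := fun i n hn => by
    rw [pol_eval]
    exact h.val i n hn

theorem formula_of {K Q Y : ℕ} {H : Fin K → ℕ} {a c : Fin K → ℤ} (hS : Shapes Q Y H a c) {ε : ℝ} (h : HLCP Y H (pol a c) ε) : Formula Y H a c ε := by
  unfold HLCP at h
  unfold Formula
  have h2 : ∀ s, count Y a c s = cntP Y (pol a c) s := by
    intro s
    unfold count cntP
    congr 1
    apply filter_congr
    intro n hn
    refine and_congr Iff.rfl (forall_congr' fun i => ?_)
    have h0 := (sys_of hS le_rfl).nonneg i hn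
    have e : (a i * (n : ℤ) ^ 2 + c i + s i).toNat = vq (pol a c i) n + s i := by
      unfold vq
      rw [pol_eval] at h0 ⊢
      omega
    rw [e]
  simp only [h2, series_eq, partial_eq, constants_eq]
  exact h

theorem holds_of {Y Q : ℕ} {ε : ℝ} (h : PQCP Y (6 * (Q + 1)) ε) : Holds Y Q ε := by
  intro K hK H a c hS
  exact formula_of hS (h K H (pol a c) (by omega) (sys_of hS (by omega)) fun i => ⟨a i, c i, rfl⟩)

theorem shape1 (Q Y K : ℕ) (hQ : 4 ≤ Q) : Shapes Q Y (fun _ : Fin K => 4 * Y ^ 2) (fun _ => 1) (fun _ => 4 * (Y : ℤ) ^ 2) where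
  lead := fun _ => ⟨by norm_num, by
    rw [abs_one]
    omega⟩
  scale := fun _ => ⟨by nlinarith [sq_nonneg Y], Nat.mul_le_mul_right _ hQ⟩
  val := fun _ n hn => by
    rw [mem_Ioc] at hn
    obtain ⟨h1, h2⟩ := hn
    have h1' : (Y : ℤ) + 1 ≤ n := by exact_mod_cast h1
    have h2' : (n : ℤ) ≤ 2 * Y := by exact_mod_cast h2
    have h0 : (0 : ℤ) ≤ Y := by positivity
    push_cast
    constructor <;> nlinarith

theorem shape2 (Q Y K : ℕ) (hQ : 4 ≤ Q) : Shapes Q Y (fun _ : Fin K => 4 * Y ^ 2) (fun _ => -1) (fun _ => 9 * (Y : ℤ) ^ 2 + 1) where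
  lead := fun _ => ⟨by norm_num, by
    rw [abs_neg, abs_one]
    omega⟩
  scale := fun _ => ⟨by nlinarith [sq_nonneg Y], Nat.mul_le_mul_right _ hQ⟩
  val := fun _ n hn => by
    rw [mem_Ioc] at hn
    obtain ⟨h1, h2⟩ := hn
    have h1' : (Y : ℤ) + 1 ≤ n := by exact_mod_cast h1
    have h2' : (n : ℤ) ≤ 2 * Y := by exact_mod_cast h2
    have h0 : (0 : ℤ) ≤ Y := by positivity
    push_cast
    constructor <;> nlinarith

theorem sq_of_four {m : ℤ} (h : IsSquare (4 * m)) : IsSquare m := by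
  obtain ⟨t, ht⟩ := h
  have h2 : (2 : ℤ) ∣ t := by
    have : (2 : ℤ) ∣ t * t := ⟨2 * m, by rw [← ht]; ring⟩
    exact (Int.prime_two.dvd_mul.1 this).elim id id
  obtain ⟨u, rfl⟩ := h2
  exact ⟨u, by linarith⟩

theorem conv (K : ℕ) (a c : Fin K → ℤ) (s : Fin K → ℕ) (ha : ∀ i, a i ≠ 0) (h1 : ∀ i, ¬ IsSquare (-(a i * (c i + s i))))
    (h2 : ∀ i j, i ≠ j → a i * (c j + s j) ≠ a j * (c i + s i)) (h3 : Admissible a c s) :
    Tendsto (partialSeries a c s) atTop (nhds (series a c s)) ∧ 0 < series a c s := by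
  rw [series_eq, partial_eq]
  refine t_CONVP K (pol a c) s (fun i => pol_deg a c i (ha i)) ?_ ?_ ((adm_eq a c s).1 h3)
  · intro i h
    rw [(pol_coeff a c i).1, (pol_coeff a c i).2.1, (pol_coeff a c i).2.2] at h
    apply h1 i
    apply sq_of_four
    have e : 4 * -(a i * (c i + (s i : ℤ))) = 0 ^ 2 - 4 * a i * (c i + s i) := by ring
    rw [e]
    exact h
  · rintro i j hij ⟨u, v, hu, hv, h⟩
    apply h2 i j hij
    have e2 := congrArg (fun f => coeff f 2) h
    have e0 := congrArg (fun f => coeff f 0) h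
    simp only [coeff_C_mul, coeff_add, (pol_coeff a c i).1, (pol_coeff a c j).1, (pol_coeff a c i).2.2, (pol_coeff a c j).2.2, coeff_C_zero,
      coeff_C_of_ne_zero (show (2 : ℕ) ≠ 0 by norm_num), add_zero] at e2 e0
    have h5 : v * (a i * (c j + s j)) = v * (a j * (c i + s i)) := by
      calc v * (a i * (c j + s j)) = a i * (v * (c j + s j)) := by ring
        _ = a i * (u * (c i + s i)) := by rw [← e0]
        _ = (u * a i) * (c i + s i) := by ring
        _ = (v * a j) * (c i + s i) := by rw [e2]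
        _ = _ := by ring
    exact mul_left_cancel₀ hv h5

/-- **Theorem.** (0) Examples of shapes: `x² + 4 Y²` (the systems `p² + k_i`, `4 Y² < k_i ≤ 8 Y²`) and `9 Y² + 1 - x²`
(the systems `k_i - p²`, `9 Y² + 1 < k_i ≤ 13 Y² + 1`). If the `a_i` are not `0`, no `-a_i (c_i + s_i)` is a square, the
`a_i x² + c_i + s_i` are pairwise not proportional and `s` is admissible, then the singular series converges to a
positive number. (1) For every large `Y` the formula holds for all systems of shapes with `K` and the `|a_i|` at most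
`A log log Y`. (2) For arbitrarily large `Y` it holds up to `c log Y / log log Y`. (3) For every large `Y` it holds up to
`c log Y / log log Y`, unless there is an exceptional zero at the scale `Y`. -/
theorem result :
    ((∀ Q Y K : ℕ, 4 ≤ Q → Shapes Q Y (fun _ : Fin K => 4 * Y ^ 2) (fun _ => 1) (fun _ => 4 * (Y : ℤ) ^ 2) ∧
        Shapes Q Y (fun _ : Fin K => 4 * Y ^ 2) (fun _ => -1) (fun _ => 9 * (Y : ℤ) ^ 2 + 1)) ∧
      (∀ (K : ℕ) (a c : Fin K → ℤ) (s : Fin K → ℕ), (∀ i, a i ≠ 0) → (∀ i, ¬ IsSquare (-(a i * (c i + s i)))) →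
        (∀ i j, i ≠ j → a i * (c j + s j) ≠ a j * (c i + s i)) →
        Admissible a c s → Tendsto (partialSeries a c s) atTop (nhds (series a c s)) ∧ 0 < series a c s)) ∧
    (∀ A ε : ℝ, 0 < ε → ∀ᶠ Y : ℕ in atTop, ∀ Q : ℕ, (Q : ℝ) ≤ A * Real.log (Real.log Y) → Holds Y Q ε) ∧
    (∃ b : ℝ, 0 < b ∧ ∀ ε : ℝ, 0 < ε → ∃ᶠ Y : ℕ in atTop, ∀ Q : ℕ,
      (Q : ℝ) ≤ b * (Real.log Y / Real.log (Real.log Y)) → Holds Y Q ε) ∧
    (∃ b C : ℝ, 0 < b ∧ 0 < C ∧ ∀ ε : ℝ, 0 < ε → ∀ᶠ Y : ℕ in atTop, NoExceptionalZero C Y →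
      ∀ Q : ℕ, (Q : ℝ) ≤ b * (Real.log Y / Real.log (Real.log Y)) → Holds Y Q ε) := by
  have hLL : Tendsto (fun Y : ℕ => Real.log Y / Real.log (Real.log Y)) atTop atTop := by
    have h1 : Tendsto (fun x : ℝ => x / Real.log x) atTop atTop := by
      have h2 : Tendsto (fun x : ℝ => Real.log x / x) atTop (nhdsWithin 0 (Set.Ioi 0)) := by
        rw [tendsto_nhdsWithin_iff]
        refine ⟨?_, ?_⟩
        · have := Real.isLittleO_log_id_atTop.tendsto_div_nhds_zero
          simpa using this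
        · filter_upwards [eventually_gt_atTop 1] with x hx
          have := Real.log_pos hx
          exact div_pos this (by linarith)
      refine (tendsto_inv_nhdsGT_zero.comp h2).congr fun x => ?_
      simp
    exact h1.comp Pool.Agent.Q145.SZ.log_tendsto
  refine ⟨⟨fun Q Y K hQ => ⟨shape1 Q Y K hQ, shape2 Q Y K hQ⟩, conv⟩, ?_, ?_, ?_⟩
  · intro A ε hε
    filter_upwards [mainP1 (12 * |A| + 12) ε hε, Pool.Agent.Q145.SZ.ll_tendsto.eventually_ge_atTop 1] with Y h hY Q hQ
    apply holds_of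
    apply h
    have h1 : A * Real.log (Real.log Y) ≤ |A| * Real.log (Real.log Y) := mul_le_mul_of_nonneg_right (le_abs_self A) (by linarith)
    have h2 : 0 ≤ |A| * Real.log (Real.log Y) := mul_nonneg (abs_nonneg A) (by linarith)
    push_cast
    nlinarith
  · obtain ⟨b, hb, h⟩ := mainP2
    refine ⟨b / 12, by positivity, fun ε hε => ?_⟩
    refine ((h ε hε).and_eventually (hLL.eventually_ge_atTop (12 / b))).mono ?_
    rintro Y ⟨h1, h2⟩ Q hQ
    apply holds_of
    apply h1
    rw [div_le_iff₀ hb] at h2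
    push_cast
    linarith
  · obtain ⟨b, C, hb, hC, h⟩ := mainP3
    refine ⟨b / 12, C, by positivity, hC, fun ε hε => ?_⟩
    filter_upwards [h ε hε, hLL.eventually_ge_atTop (12 / b)] with Y h1 h2 hne Q hQ
    apply holds_of
    apply h1 hne
    rw [div_le_iff₀ hb] at h2
    push_cast
    linarith

end Pool.Agent.Results.MP_f1a94e_nt.LongSystemsAtPrimes
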