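import Pool.Agent.Q145.LZ.All

set_option autoImplicit false
set_option maxHeartbeats 4000000

/-!
# The threshold for prime values of `n² + a_1, ..., n² + a_K` in progressions to almost all large moduli

For a modulus `q ≤ T`, a class `1 ≤ r ≤ q` and constants `a_1, ..., a_K ∈ (15 T² Y², 27 T² Y²]` let `N` be the number of the
`n = q m + r`, `Y < m ≤ 2 Y`, for which `n² + a_1, ..., n² + a_K` are all prime. The values have the size `12 T² Y² ∈ [X, 2 X]`,
so the moduli go up to about `√X / Y`, where `Y` can be a power of `log X`. The conjecture of Hardy and Littlewood (Bateman and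
Horn) for the progression predicts `N ~ 𝔖(q, r, a) Y / log (12 T² Y²) ^ K`, so primes can be expected only for `Y` above
`(log X) ^ K`. We prove that this is the threshold, for growing `K`:

* `Y ≤ (log X) ^ ((1 - δ) K)`, `1 ≤ K ≤ log X / log log X`: for almost all progressions and almost all admissible
  constants `N = 0`;
* `Y ≥ (log X) ^ ((1 + δ) K + C)` (`C = C(δ)`): for almost all progressions and almost all admissible constants the formula
  holds, with the full singular series, for `K ≤ A log log X` and all large `X`, for `K ≤ c log X / log log X` and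
  arbitrarily large `X`, and for `K ≤ c log X / log log X` and all large `X` unless there is an exceptional zero.
-/

namespace Pool.Agent.Results.MP_f1a94e_nt.SquaresInProgressions

open Finset Filter

open scoped Classical

/-- For a prime `p`: the number of classes `m` modulo `p` for which `p` divides one of the `(q m + r)² + a_i`. -/
def classes {K : ℕ} (q r : ℕ) (a : Fin K → ℕ) (p : ℕ) : ℕ := ((range p).filter fun m => ∃ i, p ∣ (q * m + r) ^ 2 + a i).card

/-- The values `n² + a_1, ..., n² + a_K` have no fixed prime divisor on the progression `n ≡ r` modulo `q`. -/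
def Admissible {K : ℕ} (q r : ℕ) (a : Fin K → ℕ) : Prop := ∀ p : ℕ, p.Prime → classes q r a p < p

/-- The partial products (primes up to `w`) of the singular series of the `n² + a_i` on the progression. -/
noncomputable def partialSeries {K : ℕ} (q r : ℕ) (a : Fin K → ℕ) (w : ℕ) : ℝ :=
  ∏ p ∈ (Icc 1 w).filter Nat.Prime, (1 - (classes q r a p : ℝ) / p) / (1 - 1 / (p : ℝ)) ^ K

/-- The singular series: the limit of the partial products. -/
noncomputable def series {K : ℕ} (q r : ℕ) (a : Fin K → ℕ) : ℝ := limUnder atTop (partialSeries q r a)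

/-- The number of the `n = q m + r`, `Y < m ≤ 2 Y`, for which all the `n² + a_i` are prime. -/
def count {K : ℕ} (Y q r : ℕ) (a : Fin K → ℕ) : ℕ := ((Ioc Y (2 * Y)).filter fun m => ∀ i, ((q * m + r) ^ 2 + a i).Prime).card

/-- The admissible constants with `15 T² Y² < a_i ≤ 27 T² Y²`. -/
noncomputable def constants (K Y T q r : ℕ) : Finset (Fin K → ℕ) :=
  (Fintype.piFinset fun _ => Ioc (15 * T ^ 2 * Y ^ 2) (27 * T ^ 2 * Y ^ 2)).filter (Admissible q r)

/-- The progressions: all moduli `q ≤ T` and classes `1 ≤ r ≤ q`. -/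
def progressions (T : ℕ) : Finset (ℕ × ℕ) := (Icc 1 T ×ˢ Icc 1 T).filter fun x => x.2 ≤ x.1

/-- For all but a proportion at most `ε` of the admissible constants the singular series converges to a
positive number `𝔖` and `count = 𝔖 Y / log (12 T² Y²) ^ K`, with a relative error at most `ε`. -/
def Formula (K Y T q r : ℕ) (ε : ℝ) : Prop :=
  (((constants K Y T q r).filter fun a => ¬ (0 < series q r a ∧ Tendsto (partialSeries q r a) atTop (nhds (series q r a)) ∧
    |count Y q r a * Real.log (12 * T ^ 2 * Y ^ 2) ^ K - series q r a * Y| ≤ ε * (series q r a * Y))).card : ℝ) ≤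
      ε * (constants K Y T q r).card

/-- For all but a proportion at most `ε` of the admissible constants there is no `n`. -/
def Empty (K Y T q r : ℕ) (ε : ℝ) : Prop :=
  (((constants K Y T q r).filter fun a => count Y q r a ≠ 0).card : ℝ) ≤ ε * (constants K Y T q r).card

/-- Above the threshold: for all `K ≤ Q`, all `Y ≥ (log X) ^ ((1 + δ) K + C)` and all `X ≤ 12 T² Y² ≤ 2 X` the formula holds
for all but a proportion at most `ε` of the progressions to moduli `q ≤ T`. -/
def Above (δ C : ℝ) (X Q : ℕ) (ε : ℝ) : Prop :=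
  ∀ K Y T : ℕ, K ≤ Q → Real.log X ^ ((1 + δ) * K + C) ≤ Y → X ≤ 12 * T ^ 2 * Y ^ 2 → 12 * T ^ 2 * Y ^ 2 ≤ 2 * X →
    (((progressions T).filter fun x => ¬ Formula K Y T x.1 x.2 ε).card : ℝ) ≤ ε * (progressions T).card

/-- Below the threshold: for all `1 ≤ K ≤ log X / log log X`, all `1 ≤ Y ≤ (log X) ^ ((1 - δ) K)` and all
`X ≤ 12 T² Y² ≤ 2 X` there is no `n`, for all but a proportion at most `ε` of the progressions (and almost all constants). -/
def Below (δ : ℝ) (X : ℕ) (ε : ℝ) : Prop :=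
  ∀ K Y T : ℕ, 1 ≤ K → (K : ℝ) ≤ Real.log X / Real.log (Real.log X) → 1 ≤ Y → (Y : ℝ) ≤ Real.log X ^ ((1 - δ) * K) →
    X ≤ 12 * T ^ 2 * Y ^ 2 → 12 * T ^ 2 * Y ^ 2 ≤ 2 * X →
    (((progressions T).filter fun x => ¬ Empty K Y T x.1 x.2 ε).card : ℝ) ≤ ε * (progressions T).card

/-- There is no exceptional zero at the scale `X`: the real zeros `β` of the primitive quadratic
characters of conductor `1 < r ≤ exp (log X / log log X)` are at most `1 - C log log X / log X`. -/
def NoExceptionalZero (C : ℝ) (X : ℕ) : Prop :=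
  ∀ (r : ℕ) [NeZero r], 1 < r → (r : ℝ) ≤ Real.exp (Real.log X / Real.log (Real.log X)) →
    ∀ χ : DirichletCharacter ℂ r, χ.IsPrimitive → χ ^ 2 = 1 → ∀ β : ℝ, χ.LFunction β = 0 →
      β ≤ 1 - C * (Real.log (Real.log X) / Real.log X)

open Pool.Agent.Q145.LQ Pool.Agent.Q145.LE Pool.Agent.Q145.LT Pool.Agent.Q145.LX Pool.Agent.Q145.LZ

section basics

variable {K : ℕ}

/-- the polynomials -/
noncomputable def fm (K Y T q r : ℕ) : Fin K → Polynomial ℤ := qz q r fun _ => 15 * T ^ 2 * Y ^ 2

/-- the shift of the constants -/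
def sh (Y T : ℕ) (s : Fin K → ℕ) : Fin K → ℕ := fun i => 15 * T ^ 2 * Y ^ 2 + s i

theorem ev_eq (Y T q r : ℕ) (s : Fin K → ℕ) (n : ℕ) (i : Fin K) :
    (fm K Y T q r i).eval (n : ℤ) + s i = (((q * n + r) ^ 2 + sh Y T s i : ℕ) : ℤ) := by
  unfold fm sh
  rw [qz_eval]
  push_cast
  ring

theorem nu_eq (Y T q r : ℕ) (s : Fin K → ℕ) (p : ℕ) : nuQ (fm K Y T q r) s p = classes q r (sh Y T s) p := by
  unfold nuQ classes
  congr 1
  apply filter_congr
  intro n _
  refine exists_congr fun i => ?_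
  rw [ev_eq, Int.natCast_dvd_natCast]

theorem adm_iff (Y T q r : ℕ) (s : Fin K → ℕ) : AdmQ (fm K Y T q r) s ↔ Admissible q r (sh Y T s) := by
  unfold AdmQ Admissible
  simp only [nu_eq]

theorem partial_eq (Y T q r : ℕ) (s : Fin K → ℕ) : singPQ (fm K Y T q r) s = partialSeries q r (sh Y T s) := by
  funext w
  unfold singPQ partialSeries locQ
  simp only [nu_eq]

theorem series_eq (Y T q r : ℕ) (s : Fin K → ℕ) : singQ (fm K Y T q r) s = series q r (sh Y T s) := by
  unfold series singQ
  rw [partial_eq]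

theorem count_eq (Y T q r : ℕ) (s : Fin K → ℕ) : cntQ Y (fm K Y T q r) s = count Y q r (sh Y T s) := by
  unfold cntQ count
  have hv : ∀ (n : ℕ) (i : Fin K), vq (fm K Y T q r i) n + s i = (q * n + r) ^ 2 + sh Y T s i := by
    intro n i
    unfold vq fm sh
    rw [qz_eval]
    have : ((q : ℤ) * n + r) ^ 2 + ((15 * T ^ 2 * Y ^ 2 : ℕ) : ℤ) = (((q * n + r) ^ 2 + 15 * T ^ 2 * Y ^ 2 : ℕ) : ℤ) := by
      push_cast
      ring
    rw [this, Int.toNat_natCast]
    ring
  simp only [hv]

theorem card_shift (Y T q r : ℕ) (P : (Fin K → ℕ) → Prop) [DecidablePred P] :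
    ((constants K Y T q r).filter P).card = ((ATQ (fun _ : Fin K => 12 * T ^ 2 * Y ^ 2) (fm K Y T q r)).filter fun s => P (sh Y T s)).card := by
  have e0 : 27 * T ^ 2 * Y ^ 2 = 15 * T ^ 2 * Y ^ 2 + 12 * T ^ 2 * Y ^ 2 := by ring
  symm
  refine card_nbij' (fun s => sh Y T s) (fun b i => b i - 15 * T ^ 2 * Y ^ 2) ?_ ?_ ?_ ?_
  · intro s hs
    simp only [coe_filter, constants, ATQ, mem_filter, Fintype.mem_piFinset, mem_Icc, mem_Ioc, Set.mem_ofPred_eq] at hs ⊢
    obtain ⟨⟨h1, h2⟩, h3⟩ := hs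
    refine ⟨⟨fun i => ?_, (adm_iff Y T q r s).1 h2⟩, h3⟩
    have := h1 i
    unfold sh
    omega
  · intro b hb
    simp only [coe_filter, constants, ATQ, mem_filter, Fintype.mem_piFinset, mem_Icc, mem_Ioc, Set.mem_ofPred_eq] at hb ⊢
    obtain ⟨⟨h1, h2⟩, h3⟩ := hb
    have e : sh Y T (fun i => b i - 15 * T ^ 2 * Y ^ 2) = b := by
      funext i
      have := h1 i
      unfold sh
      beta_reduce
      omega
    refine ⟨⟨fun i => ?_, (adm_iff Y T q r _).2 (by rw [e]; exact h2)⟩, by rw [e]; exact h3⟩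
    have := h1 i
    omega
  · intro s hs
    funext i
    unfold sh
    dsimp only
    omega
  · intro b hb
    simp only [coe_filter, constants, mem_filter, Fintype.mem_piFinset, mem_Ioc, Set.mem_ofPred_eq] at hb
    funext i
    have := hb.1.1 i
    unfold sh
    dsimp only
    omega

theorem formula_of {Y T q r : ℕ} {ε : ℝ} (h : HLC Y (fun _ : Fin K => 12 * T ^ 2 * Y ^ 2) (fm K Y T q r) ε) : Formula K Y T q r ε := by
  unfold HLC at h
  unfold Formula
  have h2 := card_shift (K := K) Y T q r (fun _ => True)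
  simp only [filter_true] at h2
  rw [card_shift Y T q r, h2]
  have e : Real.log (12 * T ^ 2 * Y ^ 2) ^ K = ∏ _i : Fin K, Real.log ((12 * T ^ 2 * Y ^ 2 : ℕ) : ℝ) := by
    rw [prod_const, card_univ, Fintype.card_fin]
    push_cast
    rfl
  rw [e]
  simp only [← count_eq, ← series_eq, ← partial_eq]
  convert h using 3

theorem empty_of {Y T q r : ℕ} {ε : ℝ} (h : (((ATQ (fun _ : Fin K => 12 * T ^ 2 * Y ^ 2) (fm K Y T q r)).filter fun s => cntQ Y (fm K Y T q r) s ≠ 0).card : ℝ) ≤
    ε * (ATQ (fun _ : Fin K => 12 * T ^ 2 * Y ^ 2) (fm K Y T q r)).card) : Empty K Y T q r ε := by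
  unfold Empty
  have h2 := card_shift (K := K) Y T q r (fun _ => True)
  simp only [filter_true] at h2
  rw [card_shift Y T q r, h2]
  simp only [← count_eq]
  convert h using 3

end basics

theorem two_le_Uz (K : ℕ) : 2 ≤ Uz (12 * (K + 1)) := by
  refine le_trans ?_ (Uz_mono (show 4 * (K + 1) ≤ 12 * (K + 1) by omega))
  rcases Nat.eq_zero_or_pos K with h | h
  · subst h
    unfold Uz
    norm_num
  · calc 2 = 2 ^ 1 := by norm_num
      _ ≤ 2 ^ K := Nat.pow_le_pow_right (by norm_num) h
      _ ≤ _ := Uz_ge K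

theorem above_of {δ C : ℝ} {X Q : ℕ} {ε : ℝ} (hl : 1 ≤ Real.log (Real.log X)) (h : PZX δ C X (12 * (Q + 1)) ε) : Above δ C X Q ε := by
  intro K Y T hK hY hT1 hT2
  have hL0 : 0 < Real.log X := by
    rcases (Real.log_natCast_nonneg X).lt_or_eq with h | h
    · exact h
    · rw [← h] at hl
      simp at hl
      linarith
  have hX0 : 0 < X := by
    rcases Nat.eq_zero_or_pos X with h | h
    · rw [h] at hL0
      simp at hL0
    · exact h
  have hYX : Y ≤ X := by
    have hT0 : 0 < T := by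
      rcases Nat.eq_zero_or_pos T with h | h
      · rw [h] at hT1
        simp at hT1
        omega
      · exact h
    have h1 : Y ^ 2 ≤ T ^ 2 * Y ^ 2 := Nat.le_mul_of_pos_left _ (by positivity)
    have h2 : Y ≤ Y ^ 2 := Nat.le_self_pow (by norm_num) Y
    have h3 : 12 * T ^ 2 * Y ^ 2 = 12 * (T ^ 2 * Y ^ 2) := by ring
    omega
  have h1 := h Y K T (by
    rw [← Real.log_rpow hL0]
    exact Real.log_le_log (Real.rpow_pos_of_pos hL0 _) hY) hYX (by omega) ⟨hT1, hT2.trans (Nat.mul_le_mul_right _ (two_le_Uz K))⟩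
  refine le_trans ?_ h1
  have : ((progressions T).filter fun x => ¬ Formula K Y T x.1 x.2 ε) ⊆
      (pairs T).filter fun x => ¬ HLC Y (fun _ : Fin K => 12 * T ^ 2 * Y ^ 2) (qz x.1 x.2 fun _ => 15 * T ^ 2 * Y ^ 2) ε := by
    intro x hx
    rw [mem_filter] at hx ⊢
    exact ⟨hx.1, fun h => hx.2 (formula_of h)⟩
  exact_mod_cast card_le_card this

theorem below_of {δ : ℝ} {X : ℕ} {ε : ℝ} (hl : 1 ≤ Real.log (Real.log X)) (h : PZZ δ X ε) : Below δ X ε := by
  intro K Y T hK1 hKL hY1 hY hT1 hT2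
  have hL0 : 0 < Real.log X := by
    rcases (Real.log_natCast_nonneg X).lt_or_eq with h | h
    · exact h
    · rw [← h] at hl
      simp at hl
      linarith
  have hY0 : (0 : ℝ) < Y := by exact_mod_cast hY1
  have h1 := h Y K T hK1 hKL hY1 (by
    have h2 := Real.log_le_log hY0 hY
    rw [Real.log_rpow hL0] at h2
    linarith) ⟨hT1, hT2.trans (Nat.mul_le_mul_right _ (two_le_Uz K))⟩
  refine le_trans ?_ h1
  refine Nat.cast_le.2 (card_le_card ?_)
  intro x hx
  rw [mem_filter] at hx ⊢
  exact ⟨hx.1, fun h => hx.2 (empty_of (by unfold fm; convert h using 3))⟩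

/-- **Theorem.** Let `0 < δ ≤ 1`. (0) For every large `X` there are no `n` below the threshold, for almost all progressions and
admissible constants. There is `C₁ > 0` such that, with `Above = Above δ C₁`: (1) for every large `X` the formula holds above the threshold for all
`K ≤ A log log X`; (2) for arbitrarily large `X` for all `K ≤ c log X / log log X`; (3) for every large `X` for all `K ≤ c log X / log log X`, unless there is an
exceptional zero at the scale `X`. -/
theorem result : ∀ δ : ℝ, 0 < δ → δ ≤ 1 →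
    (∀ ε : ℝ, 0 < ε → ∀ᶠ X : ℕ in atTop, Below δ X ε) ∧
    ∃ C₁ : ℝ, 0 < C₁ ∧
    (∀ A ε : ℝ, 0 < ε → ∀ᶠ X : ℕ in atTop, ∀ Q : ℕ, (Q : ℝ) ≤ A * Real.log (Real.log X) → Above δ C₁ X Q ε) ∧
    (∃ c : ℝ, 0 < c ∧ ∀ ε : ℝ, 0 < ε → ∃ᶠ X : ℕ in atTop, ∀ Q : ℕ, (Q : ℝ) ≤ c * (Real.log X / Real.log (Real.log X)) → Above δ C₁ X Q ε) ∧
    (∃ c C : ℝ, 0 < c ∧ 0 < C ∧ ∀ ε : ℝ, 0 < ε → ∀ᶠ X : ℕ in atTop, NoExceptionalZero C X →
      ∀ Q : ℕ, (Q : ℝ) ≤ c * (Real.log X / Real.log (Real.log X)) → Above δ C₁ X Q ε) := by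
  intro δ hδ0 hδ1
  have hev := Pool.Agent.Q145.SZ.ll_tendsto.eventually_ge_atTop 1
  refine ⟨fun ε hε => ?_, ?_⟩
  · filter_upwards [lowZ' δ ε hδ0 hε, hev] with X h1 h2
    exact below_of h2 h1
  obtain ⟨C₁, hC₁, m1, m2, m3⟩ := mainZ' hδ0 hδ1
  have hLL : Tendsto (fun X : ℕ => Real.log X / Real.log (Real.log X)) atTop atTop := by
    have h1 : Tendsto (fun x : ℝ => x / Real.log x) atTop atTop := by
      have h2 := Real.isLittleO_log_id_atTop
      have h3 : Tendsto (fun x : ℝ => Real.log x / x) atTop (nhds 0) := h2.tendsto_div_nhds_zero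
      have h4 : ∀ᶠ x : ℝ in atTop, 0 < Real.log x / x := by
        filter_upwards [eventually_gt_atTop 1] with x hx
        exact div_pos (Real.log_pos hx) (by linarith)
      have h5 : Tendsto (fun x : ℝ => (Real.log x / x)⁻¹) atTop atTop :=
        tendsto_inv_nhdsGT_zero.comp (tendsto_nhdsWithin_iff.2 ⟨h3, h4⟩)
      refine h5.congr fun x => ?_
      rw [inv_div]
    exact h1.comp Pool.Agent.Q145.SZ.log_tendsto
  refine ⟨C₁, hC₁, ?_, ?_, ?_⟩
  · intro A ε hε
    filter_upwards [m1 (12 * |A| + 12) ε hε, hev] with X h hX Q hQ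
    apply above_of hX
    apply h
    have h1 : A * Real.log (Real.log X) ≤ |A| * Real.log (Real.log X) := mul_le_mul_of_nonneg_right (le_abs_self A) (by linarith)
    push_cast
    nlinarith
  · obtain ⟨c, hc, h⟩ := m2
    refine ⟨c / 24, by positivity, fun ε hε => ?_⟩
    refine ((h ε hε).and_eventually ((hLL.eventually_ge_atTop (24 / c)).and hev)).mono ?_
    rintro X ⟨h1, h2, h3⟩ Q hQ
    apply above_of h3
    apply h1
    rw [div_le_iff₀ hc] at h2
    push_cast
    linarith
  · obtain ⟨c, C, hc, hC, h⟩ := m3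
    refine ⟨c / 24, C, by positivity, hC, fun ε hε => ?_⟩
    filter_upwards [h ε hε, hLL.eventually_ge_atTop (24 / c), hev] with X h1 h2 h3 hne Q hQ
    apply above_of h3
    apply h1 hne
    rw [div_le_iff₀ hc] at h2
    push_cast
    linarith

end Pool.Agent.Results.MP_f1a94e_nt.SquaresInProgressions
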